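import Pool.Agent.Lib.MP_77d991_gt.Ex.H1

open MeasureTheory Set Filter Topology

namespace Pool.Agent.Results.MP_77d991_gt.StarExact

/-- `M` is an `o`-symmetric convex body of `ℝ^d`. -/
def IsSymmBody {d : ℕ} (M : Set (EuclideanSpace ℝ (Fin d))) : Prop :=
  IsCompact M ∧ Convex ℝ M ∧ (interior M).Nonempty ∧ M = -M

/-- The volumes of the parallelotopes `c + {∑ tᵢ uᵢ, 0 ≤ tᵢ ≤ 1}` that contain `M`. -/
def parVolumes {d : ℕ} (M : Set (EuclideanSpace ℝ (Fin d))) : Set ℝ :=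
  {x | ∃ (c : EuclideanSpace ℝ (Fin d)) (u : Fin d → EuclideanSpace ℝ (Fin d)),
    LinearIndependent ℝ u ∧ M ⊆ (fun z => c + z) '' parallelepiped u ∧
      x = (volume ((fun z => c + z) '' parallelepiped u)).toReal}

/-- Gromov's mass* of the unit ball `M`. -/
noncomputable def massStar {d : ℕ} (M : Set (EuclideanSpace ℝ (Fin d))) : ℝ :=
  2 ^ d * ((volume M).toReal / sInf (parVolumes M))

/-- The volume of the Euclidean unit ball of `ℝ^d`. -/
noncomputable def omega (d : ℕ) : ℝ := Real.pi ^ ((d : ℝ) / 2) / Real.Gamma ((d : ℝ) / 2 + 1)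

/-- `M` is an `o`-symmetric ellipsoid: the image of the Euclidean unit ball under an invertible linear
map. -/
def IsEllipsoid {d : ℕ} (M : Set (EuclideanSpace ℝ (Fin d))) : Prop :=
  ∃ T : EuclideanSpace ℝ (Fin d) ≃ₗ[ℝ] EuclideanSpace ℝ (Fin d), M = T '' Metric.closedBall 0 1

open Pool.Agent.Lib.MP_77d991_gt.As

lemma omega_eq (d : ℕ) : omega d = √Real.pi ^ d / Real.Gamma ((d : ℝ) / 2 + 1) := by
  rw [omega, Real.sqrt_eq_rpow, ← Real.rpow_natCast, ← Real.rpow_mul Real.pi_pos.le]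
  congr 2
  ring

lemma omega_pos (d : ℕ) : 0 < omega d :=
  div_pos (Real.rpow_pos_of_pos Real.pi_pos _) (Real.Gamma_pos_of_pos (by positivity))

lemma le_of_mem {d : ℕ} {M : Set (Eu d)} {x : ℝ} (hx : x ∈ parVolumes M) :
    (volume M).toReal ≤ x := by
  obtain ⟨c, u, -, h1, rfl⟩ := hx
  refine ENNReal.toReal_mono ?_ (measure_mono h1)
  have h2 : IsCompact (parallelepiped u) := by
    unfold parallelepiped
    exact IsCompact.image isCompact_Icc (by fun_prop)
  exact (h2.image (by fun_prop)).measure_lt_top.ne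

lemma strips {d : ℕ} {M : Set (Eu d)} (hM : IsSymmBody M) (w : Fin d → Eu d)
    (hw : ∀ i, ∀ y ∈ M, |inner ℝ (w i) y| ≤ 1) :
    (volume M).toReal * |(Matrix.of fun i l => w i l).det| ≤ massStar M := by
  have hV : 0 < (volume M).toReal := ENNReal.toReal_pos
    ((isOpen_interior.measure_pos volume hM.2.2.1).trans_le (measure_mono interior_subset)).ne'
    hM.1.measure_lt_top.ne
  by_cases h0 : (Matrix.of fun i l => w i l).det = 0
  · rw [h0, abs_zero, mul_zero]
    exact mul_nonneg (by positivity)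
      (div_nonneg hV.le (Real.sInf_nonneg fun x hx => hV.le.trans (le_of_mem hx)))
  obtain ⟨c, u, h1, h2, h3⟩ := geo_par w h0
  have h4 : 2 ^ d / |(Matrix.of fun i l => w i l).det| ∈ parVolumes M :=
    ⟨c, u, h1, fun y hy => h2 fun i => hw i y hy, h3.symm⟩
  have h5 := csInf_le ⟨_, fun x hx => le_of_mem hx⟩ h4
  have h6 : 0 < sInf (parVolumes M) := hV.trans_le (le_csInf ⟨_, h4⟩ fun x hx => le_of_mem hx)
  rw [le_div_iff₀ (abs_pos.2 h0)] at h5
  rw [massStar, ← mul_div_assoc, le_div_iff₀ h6]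
  nlinarith

lemma ball_body (d : ℕ) : IsSymmBody (Metric.closedBall (0 : Eu d) 1) :=
  ⟨isCompact_closedBall _ _, convex_closedBall _ _,
    ⟨0, mem_interior_iff_mem_nhds.2 (Metric.closedBall_mem_nhds _ one_pos)⟩, by simp⟩

lemma ell_mass {d : ℕ} (hd : 1 ≤ d) {M : Set (Eu d)} (hM : IsEllipsoid M) :
    massStar M ≤ omega d := by
  obtain ⟨T, rfl⟩ := hM
  have : Nonempty (Fin d) := ⟨⟨0, hd⟩⟩
  have hT : 0 < |LinearMap.det (T : Eu d →ₗ[ℝ] Eu d)| := abs_pos.2 T.isUnit_det'.ne_zero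
  have hv : ∀ A : Set (Eu d), (volume (T '' A)).toReal =
      |LinearMap.det (T : Eu d →ₗ[ℝ] Eu d)| * (volume A).toReal := fun A => by
    have h1 := Measure.addHaar_image_linearMap (volume : Measure (Eu d)) (T : Eu d →ₗ[ℝ] Eu d) A
    rw [LinearEquiv.coe_coe] at h1
    rw [h1, ENNReal.toReal_mul, ENNReal.toReal_ofReal hT.le]
  have hb : (volume (Metric.closedBall (0 : Eu d) 1)).toReal = omega d := by
    rw [EuclideanSpace.volume_closedBall, omega_eq, Fintype.card_fin, ENNReal.ofReal_one, one_pow,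
      one_mul, ENNReal.toReal_ofReal]
    rw [← omega_eq]
    exact (omega_pos d).le
  rcases (parVolumes (T '' Metric.closedBall (0 : Eu d) 1)).eq_empty_or_nonempty with h0 | h0
  · rw [massStar, h0, Real.sInf_empty, div_zero, mul_zero]
    exact (omega_pos d).le
  have h1 : |LinearMap.det (T : Eu d →ₗ[ℝ] Eu d)| * 2 ^ d ≤
      sInf (parVolumes (T '' Metric.closedBall (0 : Eu d) 1)) := by
    refine le_csInf h0 ?_
    rintro _ ⟨c, u, h1, h2, rfl⟩
    have h3 : (fun z => c + z) '' parallelepiped u =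
        T '' ((fun z => T.symm c + z) '' parallelepiped fun i => T.symm (u i)) := by
      have h4 := image_parallelepiped (T.symm : Eu d →ₗ[ℝ] Eu d) u
      have h5 : (parallelepiped fun i => T.symm (u i)) = T.symm '' parallelepiped u := h4.symm
      rw [h5, image_image, image_image]
      simp
    rw [h3] at h2 ⊢
    rw [hv]
    refine mul_le_mul_of_nonneg_left (geo_ball _ _ ?_ ?_) hT.le
    · exact h1.map' (T.symm : Eu d →ₗ[ℝ] Eu d) T.symm.ker
    · exact (image_subset_image_iff T.injective).1 h2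
  have h2 : 0 < |LinearMap.det (T : Eu d →ₗ[ℝ] Eu d)| * 2 ^ d := by positivity
  rw [massStar, hv, hb, ← mul_div_assoc, div_le_iff₀ (h2.trans_le h1)]
  have h3 := mul_le_mul_of_nonneg_left h1 (omega_pos d).le
  linarith

theorem result : ∃ d₀ : ℕ, ∀ d ≥ d₀,
    IsLeast {x : ℝ | ∃ M : Set (EuclideanSpace ℝ (Fin d)), IsSymmBody M ∧ x = massStar M}
      (omega d) ∧
    ∀ M : Set (EuclideanSpace ℝ (Fin d)), IsSymmBody M →
      (massStar M = omega d ↔ IsEllipsoid M) := by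
  obtain ⟨d0, h⟩ := Pool.Agent.Lib.MP_77d991_gt.Ex.exact_eq
  refine ⟨max 1 d0, fun d hd => ?_⟩
  have hd1 : 1 ≤ d := (le_max_left _ _).trans hd
  have key : ∀ M : Set (Eu d), IsSymmBody M →
      omega d ≤ massStar M ∧ (massStar M = omega d ↔ IsEllipsoid M) := fun M hM => by
    obtain ⟨h1, h2⟩ := h d ((le_max_right _ _).trans hd) M hM.1 hM.2.1 hM.2.2.1 hM.2.2.2
      (massStar M) (strips hM)
    rw [← omega_eq] at h1 h2
    refine ⟨h1, fun h3 => ?_, fun h3 => le_antisymm (ell_mass hd1 h3) h1⟩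
    obtain ⟨T, hT⟩ := h2 h3.le
    exact ⟨T.toLinearEquiv, hT⟩
  refine ⟨⟨⟨_, ball_body d, ?_⟩, ?_⟩, fun M hM => (key M hM).2⟩
  · exact ((key _ (ball_body d)).2.2 ⟨LinearEquiv.refl ℝ _, by simp⟩).symm
  · rintro _ ⟨M, hM, rfl⟩
    exact (key M hM).1

end Pool.Agent.Results.MP_77d991_gt.StarExact
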